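import Pool.Agent.H26.Rev

set_option autoImplicit false

open H26.Rev

theorem Pool.Agent.Results.MP_cc637b_co.InfiniteStrong.result :
    ∃ (V : Type) (A : V → V → Prop), Countable V ∧ (∀ v, ¬ A v v) ∧ (∀ u v, A u v → ¬ A v u) ∧
      ∀ R : RevSeq A, ∃ S : Set V, Maximal (Strong (R.st R.len)) S ∧ S.Infinite :=
  main
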